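import Pool.Agent.Helper27.EB.DefsB

/-!
# CC: an additive map to `Z` which is injective on a box
-/

set_option autoImplicit false

namespace CC

open EB

/-- digits in the base `B` -/
theorem digits (B : ℤ) (hB : 0 < B) (d : ℕ) (z : Fin d → ℤ) (hz : ∀ i, |z i| < B)
    (h : ∑ i, z i * B ^ (i : ℕ) = 0) : z = 0 := by
  induction d with
  | zero => exact Subsingleton.elim _ _
  | succ d ih =>
    rw [Fin.sum_univ_succ] at h
    have h1 : ∑ i : Fin d, z i.succ * B ^ ((i.succ : Fin (d + 1)) : ℕ) =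
        B * ∑ i : Fin d, z i.succ * B ^ (i : ℕ) := by
      rw [Finset.mul_sum]
      refine Finset.sum_congr rfl fun i _ => ?_
      rw [Fin.val_succ, pow_succ]
      ring
    rw [h1] at h
    simp only [Fin.val_zero, pow_zero, mul_one] at h
    have h2 : B ∣ z 0 := ⟨-∑ i : Fin d, z i.succ * B ^ (i : ℕ), by linarith⟩
    have h0 : z 0 = 0 := Int.eq_zero_of_abs_lt_dvd h2 (hz 0)
    rw [h0, zero_add] at h
    have h3 : ∑ i : Fin d, z i.succ * B ^ (i : ℕ) = 0 := by
      rcases mul_eq_zero.1 h with h4 | h4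
      · exact absurd h4 hB.ne'
      · exact h4
    have h5 := ih (fun i => z i.succ) (fun i => hz i.succ) h3
    funext i
    refine Fin.cases h0 (fun i => ?_) i
    exact congrFun h5 i

theorem exists_phi (d N : ℕ) : ∃ φ : Gd d →+ ℤ,
    ∀ v w : Gd d, nb N v → nb N w → φ v = φ w → v = w := by
  let φ : Gd d →+ ℤ :=
    { toFun := fun v => ∑ i, v i * (2 * (N : ℤ) + 1) ^ (i : ℕ)
      map_zero' := by simp
      map_add' := fun v w => by
        rw [← Finset.sum_add_distrib]
        refine Finset.sum_congr rfl fun i _ => ?_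
        rw [Pi.add_apply]
        ring }
  refine ⟨φ, fun v w hv hw h => ?_⟩
  have h1 : φ (v - w) = 0 := by rw [map_sub, h, sub_self]
  have h2 := digits (2 * (N : ℤ) + 1) (by positivity) d (v - w) (fun i => ?_) h1
  · exact sub_eq_zero.1 h2
  · have h3 := hv i
    have h4 := hw i
    have h5 := abs_sub (v i) (w i)
    rw [Pi.sub_apply]
    linarith

theorem nb_fin (d N : ℕ) : {v : Gd d | nb N v}.Finite := by
  refine (Set.finite_Icc (fun _ => -(N : ℤ) : Gd d) (fun _ => (N : ℤ))).subset ?_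
  intro g hg
  exact ⟨fun i => (abs_le.1 (hg i)).1, fun i => (abs_le.1 (hg i)).2⟩

/-- a bound for a function on a finite set -/
theorem fin_bound {d : ℕ} (φ : Gd d → ℤ) (E : Set (Gd d)) (hE : E.Finite) :
    ∃ m : ℕ, ∀ v ∈ E, |φ v| ≤ (m : ℤ) := by
  obtain ⟨m, hm⟩ := (hE.image fun v => (φ v).natAbs).bddAbove
  refine ⟨m, fun v hv => ?_⟩
  have h1 := hm (Set.mem_image_of_mem _ hv)
  rw [Int.abs_eq_natAbs]
  exact_mod_cast h1

end CC
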