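import Pool.Agent.Helper68.CC.Ram
import Pool.Agent.Helper68.CC.Phi

/-!
# CC: local rules for patterns give a constant element

If for every `n` there is a function on the patterns of radius `ρ` with values in `Fin (n + 1)` which
is in `R` around every injective pattern of radius `ρ + r`, then `R` contains a constant function.
-/

set_option autoImplicit false

namespace CC

open EB

theorem const_of_rules {d : ℕ} {S : Type} [Finite S] (B : Set (Gd d)) (hB : B.Finite)
    (R : Set (B → S)) (ρ N : ℕ)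
    (h : ∀ n : ℕ, ∃ f : ({u : Gd d // nb ρ u} → Fin (n + 1)) → S, ∀ Q : Gd d → Fin (n + 1),
      Set.InjOn Q {v | nb N v} → (fun i : B => f fun u => Q (i.1 + u.1)) ∈ R) :
    ∃ s, (fun _ : B => s) ∈ R := by
  classical
  choose f hf using h
  obtain ⟨φ, hφ⟩ := exists_phi d N
  obtain ⟨a, ha⟩ := fin_bound φ {v | nb ρ v} (nb_fin d ρ)
  obtain ⟨b, hb⟩ := fin_bound φ B hB
  obtain ⟨c, hc⟩ := fin_bound φ {v | nb N v} (nb_fin d N)
  have hUc : ((Filter.hyperfilter ℕ : Ultrafilter ℕ) : Filter ℕ) ≤ Filter.cofinite :=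
    Filter.hyperfilter_le_cofinite
  generalize (Filter.hyperfilter ℕ : Ultrafilter ℕ) = U at hUc
  -- the functions on the lists
  let f' : ℕ → List ℕ → S := fun n l =>
    f n fun u => Fin.ofNat (n + 1) (l.getD (φ u.1 + a).toNat 0)
  choose F hF using fun l => ulim U fun n => f' n l
  obtain ⟨s, hs⟩ := ramsey U hUc (2 * a + 1) F
  obtain ⟨L, hL1, hL2, hL3⟩ := hs (2 * (a + b + c) + 1)
  -- choose `n`
  have hev1 : ∀ᶠ n in (U : Filter ℕ), ∀ t : Fin (2 * (a + b + c) + 1),
      f' n ((L.drop t.1).take (2 * a + 1)) = F ((L.drop t.1).take (2 * a + 1)) := by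
    rw [Filter.eventually_all]
    exact fun t => hF _
  have hev2 : ∀ᶠ n in (U : Filter ℕ), L.sum < n := by
    refine hUc ?_
    rw [Nat.cofinite_eq_atTop]
    exact Filter.eventually_gt_atTop _
  obtain ⟨n, hn1, hn2⟩ := (hev1.and hev2).exists
  have hLn : ∀ x ∈ L, x < n + 1 := by
    intro x hx
    have := List.le_sum_of_mem hx
    omega
  let Q : Gd d → Fin (n + 1) := fun v => Fin.ofNat (n + 1) (L.getD (φ v + (a + b + c)).toNat 0)
  have hQ : Set.InjOn Q {v | nb N v} := by
    intro v hv w hw hvw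
    have h1 := abs_le.1 (hc v hv)
    have h2 := abs_le.1 (hc w hw)
    have e1 : (φ v + (a + b + c)).toNat < L.length := by omega
    have e2 : (φ w + (a + b + c)).toNat < L.length := by omega
    have h3 := congrArg Fin.val hvw
    simp only [Q, Fin.ofNat, List.getD_eq_getElem _ _ e1, List.getD_eq_getElem _ _ e2] at h3
    rw [Nat.mod_eq_of_lt (hLn _ (List.getElem_mem e1)),
      Nat.mod_eq_of_lt (hLn _ (List.getElem_mem e2))] at h3
    have h4 := (List.Nodup.getElem_inj_iff hL2).1 h3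
    refine hφ v w hv hw ?_
    omega
  have h5 := hf n Q hQ
  refine ⟨s, ?_⟩
  convert h5 using 1
  funext i
  have h6 := abs_le.1 (hb i.1 i.2)
  obtain ⟨t, ht⟩ : ∃ t : ℕ, (t : ℤ) = φ i.1 + b + c :=
    ⟨(φ i.1 + b + c).toNat, by omega⟩
  have ht1 : t + (2 * a + 1) ≤ 2 * (a + b + c) + 1 := by omega
  have h7 := hn1 ⟨t, by omega⟩
  have h8 := hL3 t ht1
  rw [h8] at h7
  rw [← h7]
  show f n _ = f n _
  congr 1
  funext u
  have h9 := abs_le.1 (ha u.1 u.2)
  show Fin.ofNat (n + 1) _ = Fin.ofNat (n + 1) _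
  congr 1
  have e1 : (φ u.1 + a).toNat < 2 * a + 1 := by omega
  have e2 : (φ (i.1 + u.1) + (a + b + c)).toNat = t + (φ u.1 + a).toNat := by
    rw [map_add]
    omega
  rw [e2]
  simp only [List.getD_eq_getElem?_getD, List.getElem?_take_of_lt e1, List.getElem?_drop]

end CC
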