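import Pool.Agent.Helper68.CC.Defs
import Pool.Agent.Helper68.CC.ConstR
import Pool.Agent.Helper27.EB.MajConst

/-!
# CC: 2-mixing configurations and the instance of injective patterns
-/

set_option autoImplicit false

namespace CC

open EB

theorem along_append {ι V S : Type} (R : Set (ι → S)) (A : V → Set S) (w w' : List (Step ι V)) :
    ∀ a b c : S, Along R A w a b → Along R A w' b c → Along R A (w ++ w') a c := by
  induction w with
  | nil =>
    intro a b c h h'
    have h1 : a = b := h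
    subst h1
    exact h'
  | cons s w ih =>
    intro a b c h h'
    obtain ⟨p, hp, hpA, hpi, hpw⟩ := h
    exact ⟨p, hp, hpA, hpi, ih _ _ _ hpw h'⟩

/-- the displacement of a walk -/
def disp {d : ℕ} {B : Set (Gd d)} {V : Type} : List (Step B V) → Gd d
  | [] => 0
  | s :: w => (s.j.1 - s.i.1) + disp w

theorem disp_append {d : ℕ} {B : Set (Gd d)} {V : Type} (w w' : List (Step B V)) :
    disp (w ++ w') = disp w + disp w' := by
  induction w with
  | nil => simp [disp]
  | cons s w ih =>
    simp only [List.cons_append, disp, ih]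
    abel

/-- a configuration gives labels along a walk -/
theorem along_disp {d : ℕ} {S : Type} {B : Set (Gd d)} {R : Set (B → S)} {T : Set S} {V : Type}
    (w : List (Step B V)) : ∀ y ∈ YD B R T, Along R (fun _ => T) w (y 0) (y (disp w)) := by
  induction w with
  | nil =>
    intro y _
    rfl
  | cons s w ih =>
    intro y hy
    refine ⟨fun l => y (-s.i.1 + l.1), hy.1 (-s.i.1), fun l => hy.2 _, ?_, ?_⟩
    · show y (-s.i.1 + s.i.1) = y 0
      rw [neg_add_cancel]
    · have h1 := ih _ (yd_shift hy (s.j.1 - s.i.1))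
      have e1 : (0 : Gd d) + (s.j.1 - s.i.1) = -s.i.1 + s.j.1 := by abel
      have e2 : disp w + (s.j.1 - s.i.1) = disp (s :: w) := by
        show _ = (s.j.1 - s.i.1) + disp w
        abel
      change Along R (fun _ => T) w (y (0 + (s.j.1 - s.i.1))) (y (disp w + (s.j.1 - s.i.1))) at h1
      rw [e1, e2] at h1
      exact h1

/-- the instance of the injective patterns -/
def PatC (d : ℕ) (B : Set (Gd d)) (ρ N n : ℕ) : Set (B → ({u : Gd d // nb ρ u} → Fin (n + 1))) :=
  {c | ∃ Q : Gd d → Fin (n + 1), Set.InjOn Q {v | nb N v} ∧ c = fun i u => Q (i.1 + u.1)}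

theorem persist {d : ℕ} {B : Set (Gd d)} {ρ N n : ℕ}
    (w : List (Step B ({u : Gd d // nb ρ u} → Fin (n + 1)))) :
    ∀ P P' : ({u : Gd d // nb ρ u} → Fin (n + 1)), ∀ v (hv : nb ρ v), IsWalk (PatC d B ρ N n) w P P' →
      (∀ t, t ≤ w.length → nb ρ (v - disp (w.take t))) →
      ∀ u (hu : nb ρ u), u = v - disp w → P' ⟨u, hu⟩ = P ⟨v, hv⟩ := by
  induction w with
  | nil =>
    intro P P' v hv hw _ u hu huv
    have h1 : P = P' := hw
    subst h1
    have h2 : u = v := by
      rw [huv]
      simp [disp]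
    subst h2
    rfl
  | cons s w ih =>
    intro P P' v hv hw ht u hu huv
    obtain ⟨⟨Q, hQ, hc⟩, hi, hw'⟩ := hw
    have hv' : nb ρ (v - (s.j.1 - s.i.1)) := by
      have h1 := ht 1 (by simp)
      simpa [disp] using h1
    have h1 := ih _ _ (v - (s.j.1 - s.i.1)) hv' hw' (fun t htt => by
      have h2 := ht (t + 1) (by simpa using htt)
      rw [List.take_succ_cons] at h2
      have e : v - disp (s :: w.take t) = v - (s.j.1 - s.i.1) - disp (w.take t) := by
        show v - ((s.j.1 - s.i.1) + disp (w.take t)) = _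
        abel
      rwa [e] at h2) u hu (by
        rw [huv]
        show v - ((s.j.1 - s.i.1) + disp w) = _
        abel)
    rw [h1, ← hi, hc]
    show Q (s.j.1 + (v - (s.j.1 - s.i.1))) = Q (s.i.1 + v)
    congr 1
    abel

theorem nb_neg {d : ℕ} {N : ℕ} {v : Gd d} (h : nb N v) : nb N (-v) := fun i => by
  rw [Pi.neg_apply, abs_neg]
  exact h i

theorem nb_add {d : ℕ} {N M : ℕ} {v w : Gd d} (h : nb N v) (h' : nb M w) : nb (N + M) (v + w) := by
  intro i
  rw [Pi.add_apply]
  push_cast
  exact (abs_add_le _ _).trans (add_le_add (h i) (h' i))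

/-- closed walks with small displacements have the displacement `0` -/
theorem closed_zero {d : ℕ} {B : Set (Gd d)} {ρ N r n : ℕ} (hB : ∀ b ∈ B, nb r b)
    (hN : r + ρ ≤ N) (w : List (Step B ({u : Gd d // nb ρ u} → Fin (n + 1))))
    (P : {u : Gd d // nb ρ u} → Fin (n + 1)) (hw : IsWalk (PatC d B ρ N n) w P P)
    (ht : ∀ t, t ≤ w.length → nb ρ (disp (w.take t))) : disp w = 0 := by
  have h0 : nb ρ (0 : Gd d) := fun i => by simp
  have hD : nb ρ (disp w) := by
    have h1 := ht w.length le_rfl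
    rwa [List.take_length] at h1
  have h1 := persist w P P 0 h0 hw (fun t h => by
    rw [zero_sub]
    exact nb_neg (ht t h)) (-disp w) (nb_neg hD) (by rw [zero_sub])
  cases w with
  | nil => rfl
  | cons s w =>
    obtain ⟨⟨Q, hQ, hc⟩, hi, -⟩ := hw
    rw [← hi, hc] at h1
    have h2 : Q (s.i.1 + -disp (s :: w)) = Q (s.i.1 + 0) := h1
    have hmono : ∀ u : Gd d, nb ρ u → nb N (s.i.1 + u) := fun u hu i => by
      have h3 := nb_add (hB _ s.i.2) hu i
      have h4 : ((r + ρ : ℕ) : ℤ) ≤ (N : ℤ) := by exact_mod_cast hN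
      exact h3.trans h4
    have h3 := hQ (hmono _ (nb_neg hD)) (hmono _ h0) h2
    have h4 := add_left_cancel h3
    exact neg_eq_zero.1 h4

theorem pat_cc {d : ℕ} {S : Type} (B : Set (Gd d)) (R : Set (B → S)) (T : Set S) (hT : T.Nonempty)
    (M : ℕ) (hsur : ∀ a ∈ T, ∃ y ∈ YD B R T, y 0 = a)
    (hfar : ∀ a ∈ T, ∀ b ∈ T, ∀ g, ¬ nb M g → ∃ y ∈ YD B R T, y 0 = a ∧ y g = b)
    (r n N : ℕ) (hB : ∀ b ∈ B, nb r b) (hN : r + 2 * M ≤ N) :
    CycleConsistent R (PatC d B (2 * M) N n) (fun _ => T) where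
  ne _ := hT
  arc c _ i a ha := by
    obtain ⟨y, hy, hy0⟩ := hsur a ha
    refine ⟨fun l => y (-i.1 + l.1), hy.1 (-i.1), fun l => hy.2 _, ?_⟩
    show y (-i.1 + i.1) = a
    rw [neg_add_cancel, hy0]
  cyc w x hw a ha := by
    by_cases hall : ∀ t, t ≤ w.length → nb (2 * M) (disp (w.take t))
    · have h1 := closed_zero hB hN w x hw hall
      obtain ⟨y, hy, hy0⟩ := hsur a ha
      have h2 := along_disp w y hy
      rw [h1, hy0] at h2
      exact h2
    · push Not at hall
      obtain ⟨t, -, ht⟩ := hall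
      by_cases hM : nb M (disp w)
      · have hsp : w.take t ++ w.drop t = w := List.take_append_drop t w
        have hd : disp w = disp (w.take t) + disp (w.drop t) := by
          rw [← disp_append, hsp]
        have h2 : ¬ nb M (disp (w.drop t)) := by
          intro h3
          apply ht
          have h4 : disp (w.take t) = disp w + -disp (w.drop t) := by
            rw [hd]
            abel
          rw [h4]
          have h8 := nb_add hM (nb_neg h3)
          rwa [← two_mul] at h8
        obtain ⟨y, hy, hy0⟩ := hsur a ha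
        obtain ⟨y', hy', hy0', hyd'⟩ := hfar (y (disp (w.take t))) (hy.2 _) a ha _ h2
        have h5 := along_disp (w.take t) y hy
        have h6 := along_disp (w.drop t) y' hy'
        rw [hy0] at h5
        rw [hy0', hyd'] at h6
        have h7 := along_append R (fun _ => T) _ _ _ _ _ h5 h6
        rwa [hsp] at h7
      · obtain ⟨y, hy, hy0, hyd⟩ := hfar a ha a ha _ hM
        have h2 := along_disp w y hy
        rw [hyd, hy0] at h2
        exact h2

theorem cc_const {d : ℕ} {S : Type} [Finite S] (B : Set (Gd d)) (hB : B.Finite)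
    (R : Set (B → S)) (hR : CycleSolves R) (T : Set S) (hT : T.Nonempty) (M : ℕ)
    (hsur : ∀ a ∈ T, ∃ y ∈ YD B R T, y 0 = a)
    (hfar : ∀ a ∈ T, ∀ b ∈ T, ∀ g, ¬ nb M g → ∃ y ∈ YD B R T, y 0 = a ∧ y g = b) :
    ∃ s, (fun _ : B => s) ∈ R := by
  obtain ⟨r, hr⟩ : ∃ r : ℕ, ∀ b ∈ B, nb r b := by
    choose m hm using fun i : Fin d => fin_bound (fun v : Gd d => v i) B hB
    refine ⟨∑ i, m i, fun b hb i => (hm i b hb).trans ?_⟩
    exact_mod_cast Finset.single_le_sum (f := m) (fun j _ => Nat.zero_le _) (Finset.mem_univ i)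
  refine const_of_rules B hB R (2 * M) (r + 2 * M) fun n => ?_
  have : Finite {u : Gd d // nb (2 * M) u} := (nb_fin d (2 * M)).to_subtype
  obtain ⟨f, hf⟩ := hR _ _ _ (pat_cc B R T hT M hsur hfar r n (r + 2 * M) hr le_rfl)
  exact ⟨f, fun Q hQ => hf _ ⟨Q, hQ, rfl⟩⟩

end CC
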