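import Pool.Agent.Helper27.EB.DefsB

/-!
# MP_eb515b_lc: LCL problems whose template is solved by cycle consistency

Instances over a relation `R ⊆ S^ι`, walks, cycle consistency (Kozik).
-/

set_option autoImplicit false

namespace CC

/-- A step: from the `i`-th variable to the `j`-th variable of the constraint `c`. -/
structure Step (ι V : Type) where
  c : ι → V
  i : ι
  j : ι

/-- An instance over a relation of arity `ι` is a set `C` of constraints: the constraint `c : ι → V`
requires the labels of the variables `c i` to form an element of the relation.  `w` is a walk from `x`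
to `y` in the instance. -/
def IsWalk {ι V : Type} (C : Set (ι → V)) : List (Step ι V) → V → V → Prop
  | [], x, y => x = y
  | s :: w, x, y => s.c ∈ C ∧ s.c s.i = x ∧ IsWalk C w (s.c s.j) y

/-- The label `b` can be reached from `a` along the walk `w`, by elements of `R` whose labels are in
the lists `A`. -/
def Along {ι V S : Type} (R : Set (ι → S)) (A : V → Set S) : List (Step ι V) → S → S → Prop
  | [], a, b => a = b
  | s :: w, a, b => ∃ p ∈ R, (∀ l, p l ∈ A (s.c l)) ∧ p s.i = a ∧ Along R A w (p s.j) b

/-- The instance `C` over `R` is cycle consistent with the lists `A`: every label of a variable `x`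
extends to every constraint on `x`, and can be reached from itself along every closed walk at `x`. -/
structure CycleConsistent {ι V S : Type} (R : Set (ι → S)) (C : Set (ι → V)) (A : V → Set S) :
    Prop where
  ne : ∀ x, (A x).Nonempty
  arc : ∀ c ∈ C, ∀ i, ∀ a ∈ A (c i), ∃ p ∈ R, (∀ l, p l ∈ A (c l)) ∧ p i = a
  cyc : ∀ w x, IsWalk C w x x → ∀ a ∈ A x, Along R A w a a

/-- `R` is solved by cycle consistency: every cycle consistent finite instance over `R` has a
solution. -/
def CycleSolves {ι S : Type} (R : Set (ι → S)) : Prop :=
  ∀ (V : Type) [Finite V] (C : Set (ι → V)) (A : V → Set S), CycleConsistent R C A →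
    ∃ f : V → S, ∀ c ∈ C, (fun i => f (c i)) ∈ R

end CC
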