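import Pool.Agent.Helper68.CC.Defs
import Pool.Agent.Helper27.EB.MajConst

/-!
# CC: relations with a majority polymorphism are solved by cycle consistency

Absorbing lists; a maximal strong component of the pushed absorbing sets gives smaller lists.
-/

set_option autoImplicit false

namespace CC

open EB

/-! ### Walks -/

theorem along_mono {ι V S : Type} {R : Set (ι → S)} {A A' : V → Set S} (h : ∀ x, A x ⊆ A' x)
    (w : List (Step ι V)) : ∀ a b, Along R A w a b → Along R A' w a b := by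
  induction w with
  | nil => exact fun a b h => h
  | cons s w ih =>
    rintro a b ⟨p, hp, hpA, hpi, hpw⟩
    exact ⟨p, hp, fun l => h _ (hpA l), hpi, ih _ _ hpw⟩

theorem along_split {ι V S : Type} (R : Set (ι → S)) (A : V → Set S) (w w' : List (Step ι V)) :
    ∀ a c : S, Along R A (w ++ w') a c → ∃ b, Along R A w a b ∧ Along R A w' b c := by
  induction w with
  | nil => exact fun a c h => ⟨a, rfl, h⟩
  | cons s w ih =>
    rintro a c ⟨p, hp, hpA, hpi, hpw⟩
    obtain ⟨b, h1, h2⟩ := ih _ _ hpw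
    exact ⟨b, ⟨p, hp, hpA, hpi, h1⟩, h2⟩

theorem along_join {ι V S : Type} (R : Set (ι → S)) (A : V → Set S) (w w' : List (Step ι V)) :
    ∀ a b c : S, Along R A w a b → Along R A w' b c → Along R A (w ++ w') a c := by
  induction w with
  | nil =>
    intro a b c h h'
    have h1 : a = b := h
    subst h1
    exact h'
  | cons s w ih =>
    rintro a b c ⟨p, hp, hpA, hpi, hpw⟩ h'
    exact ⟨p, hp, hpA, hpi, ih _ _ _ hpw h'⟩

theorem walk_join {ι V : Type} (C : Set (ι → V)) (w w' : List (Step ι V)) :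
    ∀ x y z : V, IsWalk C w x y → IsWalk C w' y z → IsWalk C (w ++ w') x z := by
  induction w with
  | nil =>
    intro x y z h h'
    have h1 : x = y := h
    subst h1
    exact h'
  | cons s w ih =>
    rintro x y z ⟨h1, h2, h3⟩ h'
    exact ⟨h1, h2, ih _ _ _ h3 h'⟩

/-- labels reached from a list are in the list -/
theorem along_mem {ι V S : Type} {R : Set (ι → S)} {C : Set (ι → V)} {A : V → Set S}
    (w : List (Step ι V)) : ∀ x y a b, IsWalk C w x y → a ∈ A x → Along R A w a b → b ∈ A y := by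
  induction w with
  | nil =>
    intro x y a b h ha hab
    have h1 : x = y := h
    have h2 : a = b := hab
    subst h1
    subst h2
    exact ha
  | cons s w ih =>
    rintro x y a b ⟨h1, h2, h3⟩ ha ⟨p, hp, hpA, hpi, hpw⟩
    exact ih _ _ _ _ h3 (hpA s.j) hpw

/-- forward reachability -/
theorem along_fwd {ι V S : Type} {R : Set (ι → S)} {C : Set (ι → V)} {A : V → Set S}
    (hA : CycleConsistent R C A) (w : List (Step ι V)) :
    ∀ x y a, IsWalk C w x y → a ∈ A x → ∃ b, Along R A w a b := by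
  induction w with
  | nil => exact fun x y a _ _ => ⟨a, rfl⟩
  | cons s w ih =>
    rintro x y a ⟨h1, h2, h3⟩ ha
    obtain ⟨p, hp, hpA, hpi⟩ := hA.arc s.c h1 s.i a (by rw [h2]; exact ha)
    obtain ⟨b, hb⟩ := ih _ _ _ h3 (hpA s.j)
    exact ⟨b, p, hp, hpA, hpi, hb⟩

/-- backward reachability -/
theorem along_bwd {ι V S : Type} {R : Set (ι → S)} {C : Set (ι → V)} {A : V → Set S}
    (hA : CycleConsistent R C A) (w : List (Step ι V)) :
    ∀ x y b, IsWalk C w x y → b ∈ A y → ∃ a ∈ A x, Along R A w a b := by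
  induction w with
  | nil =>
    intro x y b h hb
    have h1 : x = y := h
    subst h1
    exact ⟨b, hb, rfl⟩
  | cons s w ih =>
    rintro x y b ⟨h1, h2, h3⟩ hb
    obtain ⟨e, he, heb⟩ := ih _ _ _ h3 hb
    obtain ⟨p, hp, hpA, hpj⟩ := hA.arc s.c h1 s.j e he
    refine ⟨p s.i, ?_, p, hp, hpA, rfl, ?_⟩
    · rw [← h2]
      exact hpA s.i
    · rw [hpj]
      exact heb

theorem along_m {ι V S : Type} {m : S → S → S → S} {R : Set (ι → S)} (hR : MClosed m R)
    {A : V → Set S} (hA : ∀ x, Mcl m (A x)) (w : List (Step ι V)) :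
    ∀ a b a' b' a'' b'', Along R A w a b → Along R A w a' b' → Along R A w a'' b'' →
      Along R A w (m a a' a'') (m b b' b'') := by
  induction w with
  | nil =>
    intro a b a' b' a'' b'' h h' h''
    have h1 : a = b := h
    have h2 : a' = b' := h'
    have h3 : a'' = b'' := h''
    rw [h1, h2, h3]
    rfl
  | cons s w ih =>
    rintro a b a' b' a'' b'' ⟨p, hp, hpA, hpi, hpw⟩ ⟨p', hp', hpA', hpi', hpw'⟩
      ⟨p'', hp'', hpA'', hpi'', hpw''⟩
    refine ⟨fun l => m (p l) (p' l) (p'' l), hR _ _ _ hp hp' hp'',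
      fun l => hA _ _ (hpA l) _ (hpA' l) _ (hpA'' l), ?_, ih _ _ _ _ _ _ hpw hpw' hpw''⟩
    show m (p s.i) (p' s.i) (p'' s.i) = _
    rw [hpi, hpi', hpi'']

/-! ### Helly property with different lists -/

theorem helly' {ι S : Type} (m : S → S → S → S) (Y : Set (ι → S)) (hY : MClosed m Y)
    (D : ι → Set S) (hD : ∀ y ∈ Y, ∀ i, y i ∈ D i) (E : ι → Set S)
    (hE : ∀ i, Absorb m (D i) (E i))
    (hp : ∀ i j, ∃ y ∈ Y, y i ∈ E i ∧ y j ∈ E j) (V : Finset ι) (hV : V.Nonempty) :
    ∃ y ∈ Y, ∀ i ∈ V, y i ∈ E i := by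
  classical
  induction hn : V.card using Nat.strong_induction_on generalizing V with
  | _ n ih =>
  subst hn
  rcases Nat.lt_or_ge V.card 3 with h3 | h3
  · obtain ⟨i, hi⟩ := hV
    by_cases h1 : V = {i}
    · obtain ⟨y, hy, hyi, -⟩ := hp i i
      refine ⟨y, hy, fun k hk => ?_⟩
      rw [h1, Finset.mem_singleton] at hk
      rwa [hk]
    · obtain ⟨j, hj, hij⟩ : ∃ j ∈ V, j ≠ i := by
        by_contra hcon
        push Not at hcon
        exact h1 (Finset.eq_singleton_iff_unique_mem.2 ⟨hi, hcon⟩)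
      obtain ⟨y, hy, hyi, hyj⟩ := hp i j
      refine ⟨y, hy, fun k hk => ?_⟩
      have h2 : V = {i, j} := by
        symm
        apply Finset.eq_of_subset_of_card_le
        · intro k hk
          rw [Finset.mem_insert, Finset.mem_singleton] at hk
          rcases hk with rfl | rfl
          · exact hi
          · exact hj
        · rw [Finset.card_pair hij.symm]
          omega
      rw [h2, Finset.mem_insert, Finset.mem_singleton] at hk
      rcases hk with rfl | rfl
      · exact hyi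
      · exact hyj
  · obtain ⟨i₁, i₂, i₃, h1, h2, h3', h12, h13, h23⟩ : ∃ a b c, a ∈ V ∧ b ∈ V ∧ c ∈ V ∧
        a ≠ b ∧ a ≠ c ∧ b ≠ c := by
      obtain ⟨a, ha, b, hb, c, hc, hab, hac, hbc⟩ := Finset.two_lt_card.1 h3
      exact ⟨a, b, c, ha, hb, hc, hab, hac, hbc⟩
    have key : ∀ i ∈ V, ∃ y ∈ Y, ∀ k ∈ V.erase i, y k ∈ E k := by
      intro i hi
      have hc : (V.erase i).card = V.card - 1 := Finset.card_erase_of_mem hi
      refine ih (V.erase i).card (by omega) (V.erase i) ?_ rfl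
      rw [← Finset.card_pos]
      omega
    obtain ⟨y₁, hy₁, hk₁⟩ := key i₁ h1
    obtain ⟨y₂, hy₂, hk₂⟩ := key i₂ h2
    obtain ⟨y₃, hy₃, hk₃⟩ := key i₃ h3'
    refine ⟨fun i => m (y₁ i) (y₂ i) (y₃ i), hY y₁ y₂ y₃ hy₁ hy₂ hy₃, fun k hk => ?_⟩
    have hDE := hE k
    by_cases e1 : k = i₁
    · have a2 : y₂ k ∈ E k := hk₂ k (Finset.mem_erase.2 ⟨by rw [e1]; exact h12, hk⟩)
      have a3 : y₃ k ∈ E k := hk₃ k (Finset.mem_erase.2 ⟨by rw [e1]; exact h13, hk⟩)
      exact (hDE.2 _ a2 _ a3 _ (hD y₁ hy₁ k)).2.2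
    · have a1 : y₁ k ∈ E k := hk₁ k (Finset.mem_erase.2 ⟨e1, hk⟩)
      by_cases e2 : k = i₂
      · have a3 : y₃ k ∈ E k := hk₃ k (Finset.mem_erase.2 ⟨by rw [e2]; exact h23, hk⟩)
        exact (hDE.2 _ a1 _ a3 _ (hD y₂ hy₂ k)).2.1
      · have a2 : y₂ k ∈ E k := hk₂ k (Finset.mem_erase.2 ⟨e2, hk⟩)
        exact (hDE.2 _ a1 _ a2 _ (hD y₃ hy₃ k)).1

/-! ### Pushing sets along walks -/

/-- the labels reached from `B` -/
def push {ι V S : Type} (R : Set (ι → S)) (A : V → Set S) (w : List (Step ι V)) (B : Set S) :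
    Set S := {b | ∃ a ∈ B, Along R A w a b}

theorem push_append {ι V S : Type} (R : Set (ι → S)) (A : V → Set S) (w w' : List (Step ι V))
    (B : Set S) : push R A (w ++ w') B = push R A w' (push R A w B) := by
  ext c
  constructor
  · rintro ⟨a, ha, h⟩
    obtain ⟨b, h1, h2⟩ := along_split R A w w' a c h
    exact ⟨b, ⟨a, ha, h1⟩, h2⟩
  · rintro ⟨b, ⟨a, ha, h1⟩, h2⟩
    exact ⟨a, ha, along_join R A w w' a b c h1 h2⟩

theorem push_absorb {ι V S : Type} {m : S → S → S → S} {R : Set (ι → S)} (hR : MClosed m R)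
    {C : Set (ι → V)} {A : V → Set S} (hA : CycleConsistent R C A) (hcl : ∀ x, Mcl m (A x))
    {w : List (Step ι V)} {x y : V} (hw : IsWalk C w x y) {B : Set S} (hB : Absorb m (A x) B) :
    Absorb m (A y) (push R A w B) := by
  refine ⟨?_, ?_⟩
  · rintro b ⟨a, ha, h⟩
    exact along_mem w x y a b hw (hB.1 ha) h
  · rintro s ⟨a, ha, hs⟩ t ⟨a', ha', ht⟩ u hu
    obtain ⟨e, he, heu⟩ := along_bwd hA w x y u hw hu
    obtain ⟨h1, h2, h3⟩ := hB.2 a ha a' ha' e he
    exact ⟨⟨_, h1, along_m hR hcl w _ _ _ _ _ _ hs ht heu⟩,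
      ⟨_, h2, along_m hR hcl w _ _ _ _ _ _ hs heu ht⟩,
      ⟨_, h3, along_m hR hcl w _ _ _ _ _ _ heu hs ht⟩⟩

theorem push_nonempty {ι V S : Type} {R : Set (ι → S)}
    {C : Set (ι → V)} {A : V → Set S} (hA : CycleConsistent R C A)
    {w : List (Step ι V)} {x y : V} (hw : IsWalk C w x y) {B : Set S} (hB : B ⊆ A x)
    (hne : B.Nonempty) : (push R A w B).Nonempty := by
  obtain ⟨a, ha⟩ := hne
  obtain ⟨b, hb⟩ := along_fwd hA w x y a hw (hB ha)
  exact ⟨b, a, ha, hb⟩

/-- smaller lists -/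
theorem reduce {ι V S : Type} [Finite ι] [Finite V] [Finite S] {m : S → S → S → S}
    (hm : Majority m) {R : Set (ι → S)} (hR : MClosed m R) {C : Set (ι → V)} {A : V → Set S}
    (hA : CycleConsistent R C A) (hcl : ∀ x, Mcl m (A x))
    (h2 : ∃ x, ∃ a ∈ A x, ∃ b ∈ A x, a ≠ b) :
    ∃ A' : V → Set S, CycleConsistent R C A' ∧ (∀ x, Mcl m (A' x)) ∧ (∀ x, A' x ⊆ A x) ∧
      ∃ x, A' x ≠ A x := by
  classical
  cases nonempty_fintype ι
  -- proper absorbing pairs
  let Pr : V × Set S → Prop := fun q => Absorb m (A q.1) q.2 ∧ q.2.Nonempty ∧ q.2 ≠ A q.1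
  let Re : V × Set S → V × Set S → Prop := fun q q' =>
    ∃ w, IsWalk C w q.1 q'.1 ∧ push R A w q.2 = q'.2
  have hrefl : ∀ q, Re q q := by
    intro q
    refine ⟨[], rfl, ?_⟩
    ext b
    constructor
    · rintro ⟨a, ha, h⟩
      have h1 : a = b := h
      exact h1 ▸ ha
    · exact fun hb => ⟨b, hb, rfl⟩
  have htrans : ∀ q q' q'', Re q q' → Re q' q'' → Re q q'' := by
    rintro q q' q'' ⟨w, hw, h⟩ ⟨w', hw', h'⟩
    refine ⟨w ++ w', walk_join C w w' _ _ _ hw hw', ?_⟩
    rw [push_append, h, h']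
  have hsing : ∃ q, Pr q := by
    obtain ⟨x, a, ha, b, hb, hab⟩ := h2
    refine ⟨(x, {a}), absorb_single hm ha, Set.singleton_nonempty a, ?_⟩
    intro h
    have h1 : b ∈ ({a} : Set S) := by
      rw [show ({a} : Set S) = A x from h]
      exact hb
    exact hab h1.symm
  -- a maximal pair
  obtain ⟨q₁, hq₁, hmax⟩ : ∃ q, Pr q ∧ ∀ q', Pr q' → Re q q' → Re q' q := by
    let f : {q // Pr q} → ℕ := fun q => {q' | Pr q' ∧ Re q.1 q'}.ncard
    have : Nonempty {q // Pr q} := by
      obtain ⟨q, hq⟩ := hsing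
      exact ⟨⟨q, hq⟩⟩
    obtain ⟨q, hq⟩ := Finite.exists_min f
    refine ⟨q.1, q.2, fun q' hq' hre => ?_⟩
    have hsub : {q'' | Pr q'' ∧ Re q' q''} ⊆ {q'' | Pr q'' ∧ Re q.1 q''} :=
      fun q'' h => ⟨h.1, htrans _ _ _ hre h.2⟩
    have heq := Set.eq_of_subset_of_ncard_le hsub (hq ⟨q', hq'⟩) (Set.toFinite _)
    have h1 : q.1 ∈ {q'' | Pr q'' ∧ Re q.1 q''} := ⟨q.2, hrefl _⟩
    rw [← heq] at h1
    exact h1.2
  have huniq : ∀ y B B', Pr (y, B) → Pr (y, B') → Re q₁ (y, B) → Re q₁ (y, B') → B ⊆ B' := by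
    intro y B B' hB hB' h h'
    obtain ⟨w, hw, hpw⟩ := htrans _ _ _ (hmax _ hB h) h'
    intro a ha
    rw [← show push R A w B = B' from hpw]
    exact ⟨a, ha, hA.cyc w y hw a (hB.1.1 ha)⟩
  -- the new lists
  let A' : V → Set S := fun y => {a | a ∈ A y ∧ ∀ B, Pr (y, B) → Re q₁ (y, B) → a ∈ B}
  have hA'1 : ∀ y B, Pr (y, B) → Re q₁ (y, B) → A' y = B := by
    intro y B hB h
    ext a
    constructor
    · exact fun ha => ha.2 B hB h
    · exact fun ha => ⟨hB.1.1 ha, fun B' hB' h' => huniq y B B' hB hB' h h' ha⟩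
  have hA'2 : ∀ y, (¬ ∃ B, Pr (y, B) ∧ Re q₁ (y, B)) → A' y = A y := by
    intro y hy
    ext a
    constructor
    · exact fun ha => ha.1
    · exact fun ha => ⟨ha, fun B hB h => absurd ⟨B, hB, h⟩ hy⟩
  have habs : ∀ y, Absorb m (A y) (A' y) := by
    intro y
    by_cases hy : ∃ B, Pr (y, B) ∧ Re q₁ (y, B)
    · obtain ⟨B, hB, h⟩ := hy
      rw [hA'1 y B hB h]
      exact hB.1
    · rw [hA'2 y hy]
      exact ⟨subset_rfl, fun s hs t ht u hu =>
        ⟨hcl y s hs t ht u hu, hcl y s hs u hu t ht, hcl y u hu s hs t ht⟩⟩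
  have hne : ∀ y, (A' y).Nonempty := by
    intro y
    by_cases hy : ∃ B, Pr (y, B) ∧ Re q₁ (y, B)
    · obtain ⟨B, hB, h⟩ := hy
      rw [hA'1 y B hB h]
      exact hB.2.1
    · rw [hA'2 y hy]
      exact hA.ne y
  have hcl' : ∀ y, Mcl m (A' y) := fun y s hs t ht u hu =>
    ((habs y).2 s hs t ht u ((habs y).1 hu)).1
  -- the key property
  have key : ∀ w y z, IsWalk C w y z → A' z ⊆ push R A w (A' y) := by
    intro w y z hw b hb
    by_cases hy : ∃ B, Pr (y, B) ∧ Re q₁ (y, B)
    · obtain ⟨B, hB, h⟩ := hy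
      rw [hA'1 y B hB h]
      by_cases hz : push R A w B = A z
      · rw [hz]
        exact hb.1
      · exact hb.2 _ ⟨push_absorb hR hA hcl hw hB.1, push_nonempty hA hw hB.1.1 hB.2.1, hz⟩
          (htrans _ _ _ h ⟨w, hw, rfl⟩)
    · rw [hA'2 y hy]
      obtain ⟨a, ha, hab⟩ := along_bwd hA w y z b hw hb.1
      exact ⟨a, ha, hab⟩
  -- walks can be followed in the new lists
  have hfol : ∀ w : List (Step ι V), ∀ x y a b, IsWalk C w x y → a ∈ A' x → b ∈ A' y →
      Along R A w a b → Along R A' w a b := by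
    intro w
    induction w with
    | nil => exact fun x y a b _ _ _ h => h
    | cons s w ih =>
      rintro x y a b ⟨hc, hi, hw⟩ ha hb hab
      have hai : a ∈ A' (s.c s.i) := by
        rw [hi]
        exact ha
      -- the tuples with the label at the end of the walk
      let Y : Set (Option ι → S) := {z | (fun l => z (some l)) ∈ R ∧
        (∀ l, z (some l) ∈ A (s.c l)) ∧ z none ∈ A y ∧ Along R A w (z (some s.j)) (z none)}
      have hYm : MClosed m Y := by
        rintro u v z ⟨hu1, hu2, hu3, hu4⟩ ⟨hv1, hv2, hv3, hv4⟩ ⟨hz1, hz2, hz3, hz4⟩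
        exact ⟨hR _ _ _ hu1 hv1 hz1, fun l => hcl _ _ (hu2 l) _ (hv2 l) _ (hz2 l),
          hcl _ _ hu3 _ hv3 _ hz3, along_m hR hcl w _ _ _ _ _ _ hu4 hv4 hz4⟩
      let D : Option ι → Set S := fun o => o.elim (A y) fun l => A (s.c l)
      let E : Option ι → Set S := fun o => o.elim {b} fun l => if l = s.i then {a} else A' (s.c l)
      have hYD : ∀ z ∈ Y, ∀ o, z o ∈ D o := by
        rintro z ⟨h1, h3, h4, -⟩ (_ | l)
        · exact h4
        · exact h3 l
      have hE : ∀ o, Absorb m (D o) (E o) := by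
        rintro (_ | l)
        · exact absorb_single hm ((habs y).1 hb)
        · show Absorb m (A (s.c l)) (if l = s.i then {a} else A' (s.c l))
          by_cases hl : l = s.i
          · rw [if_pos hl, hl]
            exact absorb_single hm ((habs _).1 hai)
          · rw [if_neg hl]
            exact habs _
      -- tuples give elements of `Y`
      have hmk : ∀ p ∈ R, (∀ l, p l ∈ A (s.c l)) → ∀ e, e ∈ A y → Along R A w (p s.j) e →
          (fun o : Option ι => o.elim e p) ∈ Y := fun p hp hpA e he hpe => ⟨hp, hpA, he, hpe⟩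
      have hext : ∀ p ∈ R, (∀ l, p l ∈ A (s.c l)) → ∃ e, (fun o : Option ι => o.elim e p) ∈ Y := by
        intro p hp hpA
        obtain ⟨e, he⟩ := along_fwd hA w _ y (p s.j) hw (hpA s.j)
        exact ⟨e, hmk p hp hpA e (along_mem w _ y _ e hw (hpA s.j) he) he⟩
      have hEs : ∀ l, E (some l) = if l = s.i then {a} else A' (s.c l) := fun l => rfl
      -- the pairs with the end
      have hpn : ∀ l, ∃ z ∈ Y, z (some l) ∈ E (some l) ∧ z none ∈ E none := by
        intro l
        by_cases hl : l = s.i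
        · obtain ⟨p, hp, hpA, hpi, hpw⟩ := hab
          refine ⟨_, hmk p hp hpA b ((habs y).1 hb) hpw, ?_, rfl⟩
          rw [hEs, if_pos hl, hl]
          exact hpi
        · obtain ⟨a', ha', p, hp, hpA, hpl, hpw⟩ :=
            key (⟨s.c, l, s.j⟩ :: w) (s.c l) y ⟨hc, rfl, hw⟩ hb
          refine ⟨_, hmk p hp hpA b ((habs y).1 hb) hpw, ?_, rfl⟩
          rw [hEs, if_neg hl]
          show p l ∈ A' (s.c l)
          rw [show p l = a' from hpl]
          exact ha'
      -- the pairs inside the constraint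
      have hpp : ∀ l l', l ≠ s.i → ∃ z ∈ Y, z (some l) ∈ E (some l) ∧
          z (some l') ∈ E (some l') := by
        intro l l' hl
        by_cases hl' : l' = s.i
        · obtain ⟨a', ha', p, hp, hpA, hpl, hpw⟩ :=
            key [⟨s.c, l, s.i⟩] (s.c l) (s.c s.i) ⟨hc, rfl, rfl⟩ hai
          obtain ⟨e, he⟩ := hext p hp hpA
          refine ⟨_, he, ?_, ?_⟩
          · rw [hEs, if_neg hl]
            show p l ∈ A' (s.c l)
            rw [show p l = a' from hpl]
            exact ha'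
          · rw [hEs, if_pos hl', hl']
            exact hpw
        · obtain ⟨b', hb'⟩ := hne (s.c l')
          obtain ⟨a', ha', p, hp, hpA, hpl, hpw⟩ :=
            key [⟨s.c, l, l'⟩] (s.c l) (s.c l') ⟨hc, rfl, rfl⟩ hb'
          obtain ⟨e, he⟩ := hext p hp hpA
          refine ⟨_, he, ?_, ?_⟩
          · rw [hEs, if_neg hl]
            show p l ∈ A' (s.c l)
            rw [show p l = a' from hpl]
            exact ha'
          · rw [hEs, if_neg hl']
            show p l' ∈ A' (s.c l')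
            rw [show p l' = b' from hpw]
            exact hb'
      have hp : ∀ o o', ∃ z ∈ Y, z o ∈ E o ∧ z o' ∈ E o' := by
        rintro (_ | l) (_ | l')
        · obtain ⟨z, hz, -, h⟩ := hpn s.i
          exact ⟨z, hz, h, h⟩
        · obtain ⟨z, hz, h, h'⟩ := hpn l'
          exact ⟨z, hz, h', h⟩
        · obtain ⟨z, hz, h, h'⟩ := hpn l
          exact ⟨z, hz, h, h'⟩
        · by_cases hl : l = s.i
          · by_cases hl' : l' = s.i
            · obtain ⟨z, hz, h, -⟩ := hpn s.i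
              rw [hl, hl']
              exact ⟨z, hz, h, h⟩
            · obtain ⟨z, hz, h, h'⟩ := hpp l' l hl'
              exact ⟨z, hz, h', h⟩
          · exact hpp l l' hl
      obtain ⟨z, hz, hzE⟩ := helly' m Y hYm D hYD E hE hp Finset.univ
        ⟨none, Finset.mem_univ _⟩
      have hzA : ∀ l, z (some l) ∈ A' (s.c l) := by
        intro l
        have h1 := hzE (some l) (Finset.mem_univ _)
        rw [hEs] at h1
        by_cases hl : l = s.i
        · rw [if_pos hl] at h1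
          rw [show z (some l) = a from h1, hl]
          exact hai
        · rwa [if_neg hl] at h1
      have hzn : z none = b := hzE none (Finset.mem_univ _)
      have hzi : z (some s.i) = a := by
        have h1 := hzE (some s.i) (Finset.mem_univ _)
        rw [hEs, if_pos rfl] at h1
        exact h1
      have hzw := hz.2.2.2
      rw [hzn] at hzw
      exact ⟨fun l => z (some l), hz.1, hzA, hzi, ih _ y _ b hw (hzA s.j) hb hzw⟩
  have hcyc : ∀ w x, IsWalk C w x x → ∀ a ∈ A' x, Along R A' w a a := fun w x hw a ha =>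
    hfol w x x a a hw ha ha (hA.cyc w x hw a ha.1)
  refine ⟨A', ⟨hne, fun c hc i a ha => ?_, hcyc⟩, hcl', fun x => (habs x).1, q₁.1, ?_⟩
  · obtain ⟨p, hp, hpA, hpi, -⟩ := hcyc [⟨c, i, i⟩] (c i) ⟨hc, rfl, rfl⟩ a ha
    exact ⟨p, hp, hpA, hpi⟩
  · rw [hA'1 q₁.1 q₁.2 hq₁ (hrefl q₁)]
    exact hq₁.2.2

/-- A relation with a majority polymorphism is solved by cycle consistency. -/
theorem majority_solves {ι S : Type} [Finite ι] [Nonempty ι] [Finite S] (m : S → S → S → S)
    (hm : Majority m) (R : Set (ι → S)) (hR : MClosed m R) : CycleSolves R := by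
  classical
  intro V _ C A hA
  -- closed lists
  have key : ∀ n : ℕ, ∀ A : V → Set S, {q : V × S | q.2 ∈ A q.1}.ncard ≤ n →
      CycleConsistent R C A → (∀ x, Mcl m (A x)) → ∃ f : V → S, ∀ c ∈ C, (fun i => f (c i)) ∈ R := by
    intro n
    induction n with
    | zero =>
      intro A hn hA _
      have h1 : {q : V × S | q.2 ∈ A q.1} = ∅ := by
        rw [← Set.ncard_eq_zero (Set.toFinite _)]
        omega
      choose f hf using hA.ne
      refine ⟨f, fun c hc => ?_⟩
      exfalso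
      have h3 : (c (Classical.arbitrary ι), f (c (Classical.arbitrary ι))) ∈
          {q : V × S | q.2 ∈ A q.1} := hf _
      rw [h1] at h3
      exact h3
    | succ n ih =>
      intro A hn hA hcl
      by_cases h2 : ∃ x, ∃ a ∈ A x, ∃ b ∈ A x, a ≠ b
      · obtain ⟨A', hA', hcl', hle, x, hx⟩ := reduce hm hR hA hcl h2
        refine ih A' ?_ hA' hcl'
        have hlt : {q : V × S | q.2 ∈ A' q.1}.ncard < {q : V × S | q.2 ∈ A q.1}.ncard := by
          apply Set.ncard_lt_ncard _ (Set.toFinite _)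
          rw [Set.ssubset_iff_subset_ne]
          refine ⟨fun q hq => hle _ hq, fun h => hx ?_⟩
          refine Set.Subset.antisymm (hle x) fun a ha => ?_
          have h3 : (x, a) ∈ {q : V × S | q.2 ∈ A q.1} := ha
          rw [← h] at h3
          exact h3
        omega
      · push Not at h2
        choose f hf using hA.ne
        refine ⟨f, fun c hc => ?_⟩
        obtain ⟨p, hp, hpA, -⟩ := hA.arc c hc (Classical.arbitrary ι) _ (hf _)
        have h3 : (fun i => f (c i)) = p := by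
          funext i
          exact h2 _ _ (hf _) _ (hpA i)
        rw [h3]
        exact hp
  -- the closure
  let A1 : V → Set S := fun x => {s | ∀ E : Set S, A x ⊆ E → Mcl m E → s ∈ E}
  have hAA : ∀ x, A x ⊆ A1 x := fun x s hs E hE _ => hE hs
  have hcl : ∀ x, Mcl m (A1 x) := fun x s hs t ht u hu E hE hE' =>
    hE' s (hs E hE hE') t (ht E hE hE') u (hu E hE hE')
  have hcyc : ∀ w x, IsWalk C w x x → ∀ a ∈ A1 x, Along R A1 w a a := by
    intro w x hw a ha
    refine ha {a | Along R A1 w a a} (fun b hb => along_mono hAA w _ _ (hA.cyc w x hw b hb)) ?_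
    exact fun s hs t ht u hu => along_m hR hcl w _ _ _ _ _ _ hs ht hu
  refine key _ A1 le_rfl ⟨fun x => (hA.ne x).mono (hAA x), fun c hc i a ha => ?_, hcyc⟩ hcl
  obtain ⟨p, hp, hpA, hpi, -⟩ := hcyc [⟨c, i, i⟩] (c i) ⟨hc, rfl, rfl⟩ a ha
  exact ⟨p, hp, hpA, hpi⟩

end CC
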