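import Mathlib

/-!
# CC: a Ramsey lemma

For every colouring `F` of the lists of length `K` of natural numbers with finitely many colours there
are a colour `s` and arbitrarily long lists without repetitions all of whose blocks of length `K` have
the colour `s`.  (Iterated limits along an ultrafilter.)
-/

set_option autoImplicit false

namespace CC

/-- the limit along an ultrafilter of a function with finite range -/
theorem ulim {S : Type} [Finite S] (U : Ultrafilter ℕ) (f : ℕ → S) :
    ∃ s, ∀ᶠ n in (U : Filter ℕ), f n = s := by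
  obtain ⟨s, hs⟩ := (U.map f).eq_pure_of_finite
  refine ⟨s, ?_⟩
  have h1 : ({s} : Set S) ∈ U.map f := by
    rw [hs]
    exact Ultrafilter.mem_pure.2 rfl
  exact h1

/-- the iterated limits -/
noncomputable def gl {S : Type} [Finite S] (U : Ultrafilter ℕ) (F : List ℕ → S) :
    ℕ → List ℕ → S
  | 0, l => F l
  | k + 1, l => (ulim U fun i => gl U F k (i :: l)).choose

theorem gl_succ {S : Type} [Finite S] (U : Ultrafilter ℕ) (F : List ℕ → S) (k : ℕ)
    (l : List ℕ) : ∀ᶠ i in (U : Filter ℕ), gl U F k (i :: l) = gl U F (k + 1) l :=
  (ulim U fun i => gl U F k (i :: l)).choose_spec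

theorem ramsey {S : Type} [Finite S] (U : Ultrafilter ℕ) (hU : (U : Filter ℕ) ≤ Filter.cofinite)
    (K : ℕ) (F : List ℕ → S) :
    ∃ s, ∀ N : ℕ, ∃ L : List ℕ, L.length = N ∧ L.Nodup ∧
      ∀ t, t + K ≤ N → F ((L.drop t).take K) = s := by
  refine ⟨gl U F K [], fun N => ?_⟩
  obtain ⟨L, h1, h2, h3⟩ : ∃ L : List ℕ, L.length = N ∧ L.Nodup ∧
      ∀ t j, j ≤ K → t + j ≤ N → gl U F (K - j) ((L.drop t).take j) = gl U F K [] := by
    induction N with
    | zero =>
      refine ⟨[], rfl, List.nodup_nil, fun t j _ hj => ?_⟩
      have hj0 : j = 0 := by omega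
      subst hj0
      simp
    | succ N ih =>
      obtain ⟨L, h1, h2, h3⟩ := ih
      have hev : ∀ᶠ i in (U : Filter ℕ), i ∉ L := by
        refine hU ?_
        have : {i | i ∉ L}ᶜ = {i | i ∈ L} := by
          ext i
          simp
        show {i | i ∉ L}ᶜ.Finite
        rw [this]
        exact L.finite_toSet
      have hev2 : ∀ᶠ i in (U : Filter ℕ), ∀ j : Fin K,
          gl U F (K - j.1 - 1) (i :: L.take j.1) = gl U F (K - j.1) (L.take j.1) := by
        rw [Filter.eventually_all]
        intro j
        have h4 := gl_succ U F (K - j.1 - 1) (L.take j.1)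
        have h5 : K - j.1 - 1 + 1 = K - j.1 := by
          have := j.2
          omega
        rw [h5] at h4
        exact h4
      obtain ⟨i, hi, hi2⟩ := (hev.and hev2).exists
      refine ⟨i :: L, by simp [h1], List.nodup_cons.2 ⟨hi, h2⟩, fun t j hj htj => ?_⟩
      cases t with
      | succ t =>
        rw [List.drop_succ_cons]
        exact h3 t j hj (by omega)
      | zero =>
        rw [List.drop_zero]
        cases j with
        | zero => simp
        | succ j =>
          rw [List.take_succ_cons]
          have h6 := hi2 ⟨j, by omega⟩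
          have h7 := h3 0 j (by omega) (by omega)
          rw [List.drop_zero] at h7
          rw [← h7]
          exact h6
  exact ⟨L, h1, h2, fun t ht => by
    have := h3 t K le_rfl ht
    rw [Nat.sub_self] at this
    exact this⟩

end CC
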