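import Pool.Agent.Helper68.CC.Defs

/-!
# CC: relations with a semilattice polymorphism are solved by cycle consistency

The meets of the lists solve the instance.
-/

set_option autoImplicit false

namespace CC

/-- `m` is a semilattice operation. -/
def SemiLat {S : Type} (m : S → S → S) : Prop :=
  (∀ x y, m x y = m y x) ∧ (∀ x y z, m (m x y) z = m x (m y z)) ∧ ∀ x, m x x = x

/-- The set is closed under the pointwise operation `m`. -/
def BClosed {ι S : Type} (m : S → S → S) (Y : Set (ι → S)) : Prop :=
  ∀ u v, u ∈ Y → v ∈ Y → (fun i => m (u i) (v i)) ∈ Y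

theorem semilattice_solves {ι S : Type} [Finite ι] [Nonempty ι] [Finite S] (m : S → S → S)
    (hm : SemiLat m) (R : Set (ι → S)) (hR : BClosed m R) : CycleSolves R := by
  classical
  intro V _ C A hA
  cases nonempty_fintype ι
  cases nonempty_fintype S
  let _ : Min S := ⟨m⟩
  let _ : SemilatticeInf S := SemilatticeInf.mk' (fun x y => hm.1 x y) (fun x y z => hm.2.1 x y z)
    fun x => hm.2.2 x
  have hne : ∀ x, (A x).toFinset.Nonempty := fun x => Set.toFinset_nonempty.2 (hA.ne x)
  refine ⟨fun x => (A x).toFinset.inf' (hne x) id, fun c hc => ?_⟩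
  let G : Finset (ι → S) := Finset.univ.filter fun p => p ∈ R ∧ ∀ l, p l ∈ A (c l)
  have hG : G.Nonempty := by
    obtain ⟨a, ha⟩ := hA.ne (c (Classical.arbitrary ι))
    obtain ⟨p, hp, hpA, -⟩ := hA.arc c hc _ a ha
    exact ⟨p, Finset.mem_filter.2 ⟨Finset.mem_univ _, hp, hpA⟩⟩
  have h1 : G.inf' hG id ∈ R := by
    refine Finset.inf'_induction hG id (p := fun p => p ∈ R) (fun u hu v hv => hR u v hu hv) ?_
    intro p hp
    exact (Finset.mem_filter.1 hp).2.1
  have h2 : (fun i => (A (c i)).toFinset.inf' (hne (c i)) id) = G.inf' hG id := by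
    funext i
    rw [Finset.inf'_apply]
    apply le_antisymm
    · refine Finset.le_inf' _ _ fun p hp => ?_
      exact Finset.inf'_le (f := id) (Set.mem_toFinset.2 ((Finset.mem_filter.1 hp).2.2 i))
    · refine Finset.le_inf' _ _ fun a ha => ?_
      obtain ⟨p, hp, hpA, hpi⟩ := hA.arc c hc i a (Set.mem_toFinset.1 ha)
      have h3 := Finset.inf'_le (f := fun p : ι → S => (id p) i)
        (Finset.mem_filter.2 ⟨Finset.mem_univ p, hp, hpA⟩ : p ∈ G)
      rw [show (id p : ι → S) i = a from hpi] at h3
      exact h3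
  rw [h2]
  exact h1

end CC
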